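import Pool.Agent.Hhelper14.EW.Main

set_option autoImplicit false

/-!
# Bundles with a Bochner formula for Einstein metrics, dimension at least five

`q L R` is the curvature term of the Hodge, Lichnerowicz and similar Laplacians on the bundle
associated with a unitary representation of `so(n)`.  In dimension at least five it is bounded
below (or above) by the Einstein condition only on sums of trivial bundles, of copies of the
tangent bundle and of spinor bundles, where it is `0`, `lam` and `n lam / 8`.
-/

namespace Pool.Agent.Results.MP_ebfab8_gt.BochnerBundles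

open Pool.Agent.Hhelper14.EW

theorem result {n : ℕ} (hn : 5 ≤ n) {H : Type*} [NormedAddCommGroup H] [InnerProductSpace ℂ H]
    [FiniteDimensional ℂ H] (L : Fin n → Fin n → Module.End ℂ H) (hL : IsRep L) (lam : ℝ) :
    [BddBelowOn L lam, BddAboveOn L lam,
      ∃ H0 H1 H2 : Submodule ℂ H, Decomp L H0 H1 H2 ∧
        ∀ R : Tens n, IsCurv R → IsEinstein lam R → ∀ x0 ∈ H0, ∀ x1 ∈ H1, ∀ x2 ∈ H2,
          q L R (x0 + x1 + x2)
            = (lam : ℂ) • x1 + ((n * lam / 8 : ℝ) : ℂ) • x2].TFAE :=
  main_L hn hL lam

end Pool.Agent.Results.MP_ebfab8_gt.BochnerBundles
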