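import Pool.Agent.Hhelper14.EW.Dirac

set_option autoImplicit false

/-!
# Twisted Dirac operators on Einstein manifolds of dimension at least five

The zero order term of the Weitzenböck formula of a natural Dirac operator on `S ⊗ E` is bounded
below (or above) on the Einstein curvature tensors only for the untwisted spinor bundles, where it
is `n lam / 4` by the formula of Lichnerowicz.
-/

namespace Pool.Agent.Results.MP_ebfab8_gt.DiracTwisted

open Pool.Agent.Hhelper14.EW
open scoped InnerProductSpace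

theorem result {n : ℕ} (hn : 5 ≤ n) {H : Type*} [NormedAddCommGroup H] [InnerProductSpace ℂ H]
    (τ L : Fin n → Fin n → Module.End ℂ H) (h : IsTwisted τ L) (lam : ℝ) :
    [(∃ C : ℝ, ∀ R : Tens n, IsCurv R → IsEinstein lam R → ∀ x : H,
        C * ‖x‖ ^ 2 ≤ (⟪twK τ L R x, x⟫_ℂ).re),
      (∃ C : ℝ, ∀ R : Tens n, IsCurv R → IsEinstein lam R → ∀ x : H,
        (⟪twK τ L R x, x⟫_ℂ).re ≤ C * ‖x‖ ^ 2),
      L = τ ∧ ∀ R : Tens n, IsCurv R → IsEinstein lam R →
          twK τ L R = ((n * lam / 4 : ℝ) : ℂ) • 1].TFAE :=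
  twisted_main hn h lam

end Pool.Agent.Results.MP_ebfab8_gt.DiracTwisted
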