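import Pool.Agent.SmIso.StP

/-!
# Einstein metrics on `SO(N)/H` for all subgroups `H` with irreducible normaliser and small dimension

There is an absolute constant `ε > 0` such that for every product `G` of groups `SO(N_i)`, `N_i ≥ 3`,
`N_i ≠ 6`, and every closed subgroup `H` whose Casimir operator on the Lie algebra of `G` is at most `ε` and
whose normaliser in `∏ O(N_j)` acts irreducibly on `ℝ^(N_i)` for all `i` with `N_i ≥ 7`, the homogeneous
space `G/H` has a `G`-invariant Einstein metric of positive scalar curvature.  If all `N_i ≥ 7` and all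
these actions are irreducible, the condition `2 · 10^6 · dim H ≤ N_i ^ 2` for all `i` is sufficient.
-/

namespace Pool.Agent.Results.MP_ebfab8_gt.IrreducibleNormalizer

open Pool.Agent.SmIso

theorem result :
    (∃ ε : ℝ, 0 < ε ∧ ∀ (n : ℕ) (N : Fin n → ℕ), (∀ i, 3 ≤ N i ∧ N i ≠ 6) →
      ∀ h : LieSubalgebra ℝ (SoPi N), (∀ i, 7 ≤ N i → IrrAt h i) → CasimirSmall h ε →
        QuotEinstein h) ∧
    ∀ (n : ℕ) (N : Fin n → ℕ) (h : LieSubalgebra ℝ (SoPi N)), (∀ i, 7 ≤ N i ∧ IrrAt h i) →
      (∀ i, 2 * 10 ^ 6 * Module.finrank ℝ h ≤ N i ^ 2) → QuotEinstein h := by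
  obtain ⟨ε, hε, h1⟩ := einstein_so_prod
  refine ⟨⟨ε, hε, fun n N hN h hi hc => ?_⟩, fun n N h hi hd => ?_⟩
  · exact h1 n N hN h (fun i h7 => irrAt_iff (hi i h7)) hc
  · exact einstein_so_dim n N h (fun i => (hi i).1) (fun i => irrAt_iff (hi i).2) hd

end Pool.Agent.Results.MP_ebfab8_gt.IrreducibleNormalizer
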