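import Pool.Agent.EinS.ClFinal

/-!
# Einstein metrics on `SO(N)/H`, `SU(N)/H` and `Sp(N)/H` for every closed subgroup `H` and `N` large

Let `G_N` be one of the groups `SO(N)`, `SU(N)`, `Sp(N)`.  For every `k` and every closed subgroup `H`
of `G_k` there is a number `N_0` such that for every `N ≥ N_0` the homogeneous space `G_N/H` has a
`G_N`-invariant Einstein metric of positive scalar curvature.

The metric is close to the normal metric of `G_N/H`, but the linearised Einstein equations at the
normal metric are almost degenerate: the eigenvalues of the Casimir operator of `H` on the tangent
space and the gap both have order `1/N`, and there are error terms of the same order.  The metric on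
the space of off-diagonal blocks is therefore `1 + sqrt(2 C)` at leading order, `C` the Casimir
operator of `H`, up to a factor, and the equations are solved by a fixed point theorem near it.
-/

namespace Pool.Agent.Results.MP_ebfab8_gt.LargeGroupQuotients

open Pool.Agent.EStab Pool.Agent.EinS Quaternion

theorem result :
    LargeQuotientsEinstein ℝ ∧ LargeQuotientsEinstein ℂ ∧ LargeQuotientsEinstein ℍ[ℝ] :=
  ⟨large_quotients ℝ, large_quotients ℂ, large_quotients ℍ[ℝ]⟩

end Pool.Agent.Results.MP_ebfab8_gt.LargeGroupQuotients
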