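import Pool.Agent.Hhelper29.Ein.Hull

set_option autoImplicit false

/-!
# No pointwise Chern-Weil obstruction to Einstein metrics in even dimension at least six

In dimension four the known obstructions come from Chern-Weil integrands that have a sign on
Einstein curvature tensors.  In dimension `2 * m`, `m ≥ 3`, the Einstein curvature tensors with a
given Einstein constant satisfy no linear or convex inequality between the Gauss-Bonnet integrand
and the integrands of the products of traces of powers of the curvature form.
-/

namespace Pool.Agent.Results.MP_ebfab8_gt.NoPointwiseObstruction

open Pool.Agent.Ein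

/-- The convex hull of the Chern-Weil vectors of the Einstein curvature tensors of `ℝ^(2m)`,
`m ≥ 3`, with Einstein constant `lam`, is the linear span of the Chern-Weil vectors of all
algebraic curvature tensors. -/
theorem result (m : ℕ) (hm : 3 ≤ m) (lam : ℝ) :
    convexHull ℝ (charVec '' {R : Tens m | IsCurv R ∧ IsEinstein lam R}) =
      (Submodule.span ℝ (charVec '' {R : Tens m | IsCurv R}) :
        Set (ℝ × (Equiv.Perm (Fin m) → ℝ))) :=
  hull hm lam

end Pool.Agent.Results.MP_ebfab8_gt.NoPointwiseObstruction
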