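import Pool.Agent.SmIso.FinAt
import Pool.Agent.SmIso.Diag
import Pool.Agent.EStab.Final

/-!
# Einstein metrics on `G/H` for all subgroups `H` with small Casimir operator

Let `L₁, ..., L_r` be compact semisimple Lie algebras.  There is `δ > 0` such that for every product `G` of
(any number of) copies of the corresponding groups and for every closed subgroup `H` whose Casimir operator
on the Lie algebra of `G` is at most `δ`, the homogeneous space `G/H` has a `G`-invariant Einstein metric
of positive scalar curvature, provided that `RigidAt h` holds; it always holds if the `L_j` are rigid.  The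
products of the Lie algebras `so(N)`, `N ≥ 3`, `N ≠ 6`, are rigid.  Diagonal subalgebras of `g^n` have
Casimir operator at most `1/n`, so the spaces `G^n/ΔH`, diffeomorphic to `G/H × G^(n-1)`, are included.
-/

namespace Pool.Agent.Results.MP_ebfab8_gt.SmallIsotropyProducts

open Pool.Agent.EStab Pool.Agent.SmIso

theorem result :
    (∀ (r : ℕ) (L : Fin r → Type) [∀ j, LieRing (L j)] [∀ j, LieAlgebra ℝ (L j)]
      [∀ j, Module.Finite ℝ (L j)], (∀ j, CompactSemisimple (L j)) →
      ∃ δ : ℝ, 0 < δ ∧ ∀ (n : ℕ) (s : Fin n → Fin r) (h : LieSubalgebra ℝ (∀ i, L (s i))),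
        CasimirSmall h δ → RigidAt h →
          HasEinsteinMetric (∀ i, L (s i)) h.toSubmodule (stabAuts h)) ∧
    (∀ (r : ℕ) (L : Fin r → Type) [∀ j, LieRing (L j)] [∀ j, LieAlgebra ℝ (L j)]
      [∀ j, Module.Finite ℝ (L j)], (∀ j, CompactSemisimple (L j) ∧ Rigid (L j)) →
      ∀ (n : ℕ) (s : Fin n → Fin r) (h : LieSubalgebra ℝ (∀ i, L (s i))), RigidAt h) ∧
    (∀ (r : ℕ) (N : Fin r → ℕ), (∀ i, 3 ≤ N i ∧ N i ≠ 6) →
      CompactSemisimple (∀ i, LieAlgebra.Orthogonal.so (Fin (N i)) ℝ) ∧
        Rigid (∀ i, LieAlgebra.Orthogonal.so (Fin (N i)) ℝ)) ∧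
    ∀ (g : Type) [LieRing g] [LieAlgebra ℝ g] [Module.Finite ℝ g], CompactSemisimple g →
      ∀ (n : ℕ), 0 < n → ∀ h : LieSubalgebra ℝ g, CasimirSmall (diagSub n h) (1 / n) :=
  ⟨fun _ L _ _ _ hL => einstein_products_at L hL,
    fun _ L _ _ _ hL _ s h => rigidAt_of_rigid L hL s h,
    fun _ _ hN => so_prod hN,
    fun _ _ _ _ hg _ hn h => diag_casimir hg hn h⟩

end Pool.Agent.Results.MP_ebfab8_gt.SmallIsotropyProducts
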