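import Pool.Agent.EinU.Fin

/-!
# Einstein metrics on `SO(N)/H` for all subgroups `H` of small dimension which preserve a splitting

For every `θ > 0` there is `ε > 0` such that for all `N ≥ 3` and all closed subgroups `H` of `SO(N)` with
`dim H ≤ ε N²` which preserve a subspace `W` of `ℝ^N` with `θ N ≤ dim W ≤ (1 - θ) N`, the homogeneous space
`SO(N)/H` has an `SO(N)`-invariant Einstein metric of positive scalar curvature.  In particular there is an
absolute constant `ε > 0` such that this holds for all closed subgroups of `SO(N)` which preserve the summands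
of an orthogonal decomposition of `ℝ^N` into subspaces of dimension at most `ε N`.
-/

namespace Pool.Agent.Results.MP_ebfab8_gt.SplitSubgroups

open Matrix Pool.Agent.EStab Pool.Agent.EinU LieAlgebra.Orthogonal

theorem result :
    (∀ θ : ℝ, 0 < θ → ∃ ε : ℝ, 0 < ε ∧ ∀ N : ℕ, 3 ≤ N →
      ∀ (h : LieSubalgebra ℝ (so (Fin N) ℝ)) (W : Submodule ℝ (Fin N → ℝ)),
        (∀ x ∈ h, ∀ v ∈ W, x.1 *ᵥ v ∈ W) → θ * N ≤ Module.finrank ℝ W →
        (Module.finrank ℝ W : ℝ) ≤ (1 - θ) * N → (Module.finrank ℝ h : ℝ) ≤ ε * N ^ 2 →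
          HasEinsteinMetric (so (Fin N) ℝ) h.toSubmodule (normAuts h W)) ∧
    ∃ ε : ℝ, 0 < ε ∧ ∀ N : ℕ, 3 ≤ N →
      ∀ (h : LieSubalgebra ℝ (so (Fin N) ℝ)) (k : ℕ) (W : Fin k → Submodule ℝ (Fin N → ℝ)),
        (∀ j, (Module.finrank ℝ (W j) : ℝ) ≤ ε * N) →
        (∀ i j, i ≠ j → ∀ v ∈ W i, ∀ w ∈ W j, v ⬝ᵥ w = 0) → ⨆ j, W j = ⊤ →
        (∀ x ∈ h, ∀ j, ∀ v ∈ W j, x.1 *ᵥ v ∈ W j) →
          HasEinsteinMetric (so (Fin N) ℝ) h.toSubmodule (blockAuts h W) :=
  ⟨fun _ hθ => einstein_split hθ, einstein_small_blocks⟩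

end Pool.Agent.Results.MP_ebfab8_gt.SplitSubgroups
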