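import Pool.Agent.EStab.Final

/-!
# Einstein metrics on `G/H × G^(n-1)`, for every closed subgroup `H` of `G`

Let `G` be a compact semisimple Lie group with Lie algebra `g`.  The homogeneous space `G^n/ΔH` is
diffeomorphic to `G/H × G^(n-1)`.  If `g` is rigid (the Casimir operator has no eigenvalue one on the
symmetric endomorphisms of `g`), then there is `n₀` such that for all `n ≥ n₀` and all subgroups `H` the
space `G^n/ΔH` has a `G^n`-invariant Einstein metric of positive scalar curvature.  All products of the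
Lie algebras `so(N)`, `N ≥ 3`, `N ≠ 6`, are compact semisimple and rigid.
-/

namespace Pool.Agent.Results.MP_ebfab8_gt.StableProducts

open Pool.Agent.EStab

theorem result :
    (∀ (g : Type) [LieRing g] [LieAlgebra ℝ g] [Module.Finite ℝ g],
      CompactSemisimple g → Rigid g →
        ∃ n₀ : ℕ, ∀ n ≥ n₀, ∀ h : LieSubalgebra ℝ g,
          HasEinsteinMetric (Fin n → g) (diagonal n h) (diagonalAuts n h)) ∧
    ∀ (r : ℕ) (N : Fin r → ℕ), (∀ i, 3 ≤ N i ∧ N i ≠ 6) →
      CompactSemisimple (∀ i, LieAlgebra.Orthogonal.so (Fin (N i)) ℝ) ∧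
        Rigid (∀ i, LieAlgebra.Orthogonal.so (Fin (N i)) ℝ) :=
  ⟨fun _ _ _ _ hg hr => einstein_unif hg hr, fun _ _ hN => so_prod hN⟩

end Pool.Agent.Results.MP_ebfab8_gt.StableProducts
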