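import Pool.Agent.EinG.Fin

/-!
# `G/H × G^(n-1)` is an Einstein manifold for every compact semisimple `G`, every closed `H` and all large `n`

For every compact semisimple Lie group `G` there is a number `n₀` such that for all `n ≥ n₀` and all closed
subgroups `H` of `G` the homogeneous space `G^n/ΔH`, which is diffeomorphic to `G/H × G^(n-1)`, has a
`G^n`-invariant Einstein metric of positive scalar curvature.  More generally, let `L₁, ..., L_r` be compact
semisimple Lie algebras.  There is a number `p` such that for all `P` there is `δ > 0` such that the following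
holds: let `G` be the product of powers `∏ G_i^(q_i)`, `p ≤ q_i ≤ P`, of any number of groups `G_i` with Lie
algebras among the `L_j`, and let `H` be a closed subgroup of the product of the diagonals `ΔG_i` whose Casimir
operator on the Lie algebra of `G` is at most `δ`; then `G/H` has a `G`-invariant Einstein metric of positive
scalar curvature.

The metrics are not close to the bi-invariant one, which is degenerate if `G` has factors `SU(k)`, `k ≥ 3`, but
close to a left-invariant Einstein metric on `G_i^(q_i)` which is obtained from the bi-invariant one by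
scaling the diagonal.
-/

namespace Pool.Agent.Results.MP_ebfab8_gt.StableQuotients

open Pool.Agent.EStab Pool.Agent.SmIso Pool.Agent.EinG

theorem result :
    (∀ (g : Type) [LieRing g] [LieAlgebra ℝ g] [Module.Finite ℝ g], CompactSemisimple g →
      ∃ n₀ : ℕ, ∀ n, n₀ ≤ n → ∀ h : LieSubalgebra ℝ g,
        HasEinsteinMetric (Fin n → g) (diagonal n h) (factorAuts n h)) ∧
    ∀ (r : ℕ) (L : Fin r → Type) [∀ j, LieRing (L j)] [∀ j, LieAlgebra ℝ (L j)]
      [∀ j, Module.Finite ℝ (L j)], (∀ j, CompactSemisimple (L j)) →
      ∃ p : ℕ, 2 ≤ p ∧ ∀ P : ℕ, ∃ δ : ℝ, 0 < δ ∧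
        ∀ (n : ℕ) (s : Fin n → Fin r) (q : Fin n → ℕ), (∀ i, p ≤ q i ∧ q i ≤ P) →
        ∀ h : LieSubalgebra ℝ (∀ i, Fin (q i) → L (s i)), (∀ x ∈ h, ∀ i a b, x i a = x i b) →
          CasimirSmall h δ →
            HasEinsteinMetric (∀ i, Fin (q i) → L (s i)) h.toSubmodule (blockAuts h) :=
  ⟨fun _ _ _ _ hg => einstein_stable hg, fun _ L _ _ _ hL => einstein_blocks L hL⟩

end Pool.Agent.Results.MP_ebfab8_gt.StableQuotients
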