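import Pool.Agent.EStab.StFinal

/-!
# Einstein metrics on the quotients of the Stiefel manifolds `V_k(ℝ^(n+k))` by subgroups of `SO(k)`

For every `k` there is `n₀` such that for all `n ≥ n₀` and all closed subgroups `H` of `SO(k)` the
manifold `V_k(ℝ^(n+k))/H = SO(n+k)/(SO(n) × H)` has an `SO(n+k)`-invariant Einstein metric of positive
scalar curvature.
-/

namespace Pool.Agent.Results.MP_ebfab8_gt.StiefelQuotients

open Pool.Agent.EStab

theorem result (k : ℕ) :
    ∃ n₀ : ℕ, ∀ n ≥ n₀, ∀ h : LieSubalgebra ℝ (LieAlgebra.Orthogonal.so (Fin k) ℝ),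
      HasEinsteinMetric (LieAlgebra.Orthogonal.so (Fin n ⊕ Fin k) ℝ) (isoSt n h) (autSt n h) :=
  einstein_stiefel k

end Pool.Agent.Results.MP_ebfab8_gt.StiefelQuotients
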