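import Pool.Agent.Hhelper14.EW.C6

set_option autoImplicit false

/-!
# Weitzenböck formulas on irreducible bundles over Einstein manifolds, dimension at least five

A natural Weitzenböck formula on the bundle of an irreducible unitary representation of `so(n)`
whose curvature term is bounded below (or above) by the Einstein equation exists only for the
tangent bundle, the (half) spinor bundles, the Rarita-Schwinger bundles and, for even `n`, the
forms of degree `n / 2 - 1`; and there the curvature term is a constant multiple of the Einstein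
constant.
-/

namespace Pool.Agent.Results.MP_ebfab8_gt.WeitzenbockIrreducible

open Pool.Agent.Hhelper14.EW
open scoped InnerProductSpace

theorem result {n : ℕ} (hn : 5 ≤ n) {H : Type*} [NormedAddCommGroup H] [InnerProductSpace ℂ H]
    [FiniteDimensional ℂ H] (L F : Fin n → Fin n → Module.End ℂ H) (hL : IsRep L)
    (hirr : IsIrred L) (hF : IsWeitz L F) (lam : ℝ)
    (hb : (∃ C : ℝ, ∀ R : Tens n, IsCurv R → IsEinstein lam R → ∀ x : H,
        C * ‖x‖ ^ 2 ≤ (⟪wK L F R x, x⟫_ℂ).re) ∨
      (∃ C : ℝ, ∀ R : Tens n, IsCurv R → IsEinstein lam R → ∀ x : H,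
        (⟪wK L F R x, x⟫_ℂ).re ≤ C * ‖x‖ ^ 2)) :
    F = 0 ∨ ((∃ c : ℝ, ∀ (μ : ℝ) (R : Tens n), IsCurv R → IsEinstein μ R →
        wK L F R = ((c * μ : ℝ) : ℂ) • 1) ∧
      ∃ w : ℕ → ℝ, IsHighestWeight L w ∧
        (WVector n w ∨ WSpin n w ∨ WRarita n w ∨ WMiddle n w)) :=
  weitz_main hn hL hirr hF lam hb

end Pool.Agent.Results.MP_ebfab8_gt.WeitzenbockIrreducible
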